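import Mathlib

set_option autoImplicit false

namespace Pool.Agent.H.MP_3baeb2_co

open Relation

def edges : List (Fin 7 × Fin 7) :=
  [(0,3),(0,5),(0,6),(1,2),(1,4),(1,6),(2,4),(2,6),(3,5),(3,6),(4,5)]

def adjM (u v : Fin 7) : Bool := decide ((u, v) ∈ edges) || decide ((v, u) ∈ edges)

lemma adjM_symm : ∀ u v, adjM u v = adjM v u := by decide
lemma adjM_irr : ∀ u, adjM u u = false := by decide

def Pr (c : Fin 7 → ℕ) : Prop := ∀ u v, adjM u v = true → c u ≠ c v

instance (c : Fin 7 → ℕ) : Decidable (Pr c) := by unfold Pr; infer_instance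

lemma pr_iff (c : Fin 7 → ℕ) : Pr c ↔ c 0 ≠ c 3 ∧ c 0 ≠ c 5 ∧ c 0 ≠ c 6 ∧ c 1 ≠ c 2 ∧ c 1 ≠ c 4 ∧
    c 1 ≠ c 6 ∧ c 2 ≠ c 4 ∧ c 2 ≠ c 6 ∧ c 3 ≠ c 5 ∧ c 3 ≠ c 6 ∧ c 4 ≠ c 5 := by
  constructor
  · intro h
    refine ⟨?_, ?_, ?_, ?_, ?_, ?_, ?_, ?_, ?_, ?_, ?_⟩ <;> exact h _ _ (by decide)
  · intro h u v
    fin_cases u <;> fin_cases v <;> simp [adjM, edges] <;> omega

lemma no3 (c : Fin 7 → ℕ) (h : Pr c) : ¬ ∀ v, c v < 3 := by
  intro h3
  rw [pr_iff] at h
  have := h3 0; have := h3 1; have := h3 2; have := h3 3; have := h3 4; have := h3 5; have := h3 6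
  omega

def DS (j : ℕ) (c d : Fin 7 → ℕ) : Prop :=
  (Pr c ∧ ∀ v, c v < j) ∧ (Pr d ∧ ∀ v, d v < j) ∧ ∃ v, ∀ w, w ≠ v → c w = d w

lemma DS.symm {j : ℕ} {c d : Fin 7 → ℕ} (h : DS j c d) : DS j d c :=
  ⟨h.2.1, h.1, h.2.2.imp fun _ h w hw => (h w hw).symm⟩

def dec (n : ℕ) : Fin 7 → ℕ := fun v => n / 4 ^ v.1 % 4

def tour : List ℕ := [11856, 11868, 11356, 10332, 10335, 10271, 9247, 9759, 9747, 10003, 11027, 11025, 11217,
  9169, 8913, 8925, 8909, 8653, 10701, 10700, 10572, 11596, 11852, 11844, 11892, 11888, 11632, 10608, 10611,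
  8563, 8819, 8823, 8775, 9031, 11079, 11076, 11204, 10180, 9924, 9932, 9948, 9436, 10460, 10461, 10269, 11293,
  11805, 11793, 11825, 11569, 10545, 10547, 6451, 6459, 6203, 5179, 5178, 7226, 7482, 7474, 7730, 5682, 5683,
  9779, 9783, 9271, 10295, 10293, 11317, 11829, 11781, 11789, 11533, 10509, 10511, 10575, 8527, 8783, 8799,
  8787, 9043, 11091, 11088, 11216, 10192, 9936, 9968, 9972, 9460, 10484, 10485, 2293, 2297, 2553, 505, 506, 378,
  3450, 3194, 3190, 3702, 630, 631, 695, 1719, 1207, 1211, 5307, 5304, 7352, 7608, 7600, 7856, 5808, 5811, 4787,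
  4531, 4539, 4491, 5003, 6027, 6024, 6088, 7112, 6600, 6604, 6636, 6380, 5356, 5358, 5166, 7214, 7470, 7458,
  15650, 15649, 14625, 15137, 15121, 15129, 14361, 15385, 15386, 13338, 14106, 14098, 13842, 15890, 15889,
  16017, 12945, 13201, 13209, 13193, 12681, 15753, 15752, 7560, 7564, 7820, 5772, 5836, 5838, 4814, 4558, 4554,
  4602, 4594, 4850, 5874, 5872, 5874, 4850, 4594, 4578, 4590, 494, 493, 2541, 2285, 2277, 3045, 997, 998, 2022,
  1254, 1262, 1246, 1758, 734, 733, 669, 3741, 3229, 3225, 15513, 15512, 13464, 14232, 14216, 14212, 13956,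
  16004, 15940, 15942, 12870, 13126, 13130, 12618, 15690, 15688, 14664, 15176, 15172, 15204, 14436, 15460,
  15462, 3174, 3182, 3438, 366, 367, 2415, 2159, 2143, 2139, 2907, 859, 858, 13146, 13138, 12882, 15954, 15952,
  16016, 13968, 14224, 14240, 14244, 13476, 15524, 15525, 15397, 15398, 13350, 14118, 14114, 5922, 5923, 6947,
  6435, 6447, 6415, 6411, 6923, 5899, 5898, 6090, 5066, 6090, 5898, 14090, 14086, 13830, 15878, 15877, 16005,
  12933, 13189, 13221, 13217, 12705, 15777, 15776, 7584, 7596, 7340, 5292, 5295, 5167, 6191, 5167, 5295, 1199,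
  1191, 1959, 935, 933, 935, 871, 870, 13158, 13154, 12642, 15714, 15712, 14688, 15200, 15184, 15192, 14424,
  15448, 15450, 3162, 3166, 3678, 606, 607, 671, 1695, 1183, 1179, 1947, 923, 921, 985, 986, 2010, 1242, 1274,
  1270, 1782, 758, 757, 693, 3765, 3253, 3257, 3513, 441, 443, 379, 2427, 2171, 2167, 2151, 2919, 2151, 2167,
  10359, 10356, 11380, 10356, 10359, 2167, 2171, 2427, 379, 443, 441, 3513, 3257, 3253, 3237, 3245, 3501, 429,
  431, 4527, 4515, 5027, 6051, 6048, 6112, 6114, 5090, 6114, 6112, 7136, 6624, 6640, 6648, 6392, 5368, 5370,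
  5368, 6392, 6648, 6640, 10736, 10737, 8689, 8945, 8949, 8901, 9157, 11205, 11013, 11015, 9991, 9735, 9743,
  5647, 5646, 7694, 7438, 7434, 15626, 15625, 14601, 15113, 15109, 15141, 14373, 15141, 15109, 15113, 14601,
  15625, 15626, 7434, 7438, 7694, 5646, 5647, 5775, 4751, 4495, 4751, 5775, 5647, 9743, 9735, 9991, 11015,
  11013, 11205, 9157, 8901, 8949, 8945, 8689, 10737, 10736, 6640, 6624, 7136, 6112, 6048, 6051, 5027, 4515,
  4527, 431, 429, 3501, 3245, 3237, 3253, 3765, 693, 757, 758, 1782, 1270, 1274, 1242, 2010, 986, 985, 3033,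
  2265, 2269]

def pb (n : ℕ) : Bool := edges.all fun e => dec n e.1 != dec n e.2

def ab (a b : ℕ) : Bool :=
  pb a && pb b && (List.finRange 7).any fun v => (List.finRange 7).all fun w => w == v || dec a w == dec b w

def chain : List ℕ → Bool
  | a :: b :: l => ab a b && chain (b :: l)
  | _ => true

lemma pb_pr (n : ℕ) (h : pb n = true) : Pr (dec n) := by
  rw [pr_iff]
  simpa [pb, edges] using h

lemma ab_ds (j : ℕ) (hj : 4 ≤ j) (a b : ℕ) (h : ab a b = true) : DS j (dec a) (dec b) := by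
  simp only [ab, Bool.and_eq_true, List.any_eq_true, List.all_eq_true, Bool.or_eq_true, beq_iff_eq] at h
  obtain ⟨⟨h1, h2⟩, v, -, h3⟩ := h
  have : ∀ n v, dec n v < j := fun n v => lt_of_lt_of_le (Nat.mod_lt _ (by norm_num)) hj
  exact ⟨⟨pb_pr _ h1, this _⟩, ⟨pb_pr _ h2, this _⟩, v, fun w hw => (h3 w (List.mem_finRange _)).resolve_left hw⟩

lemma chain_reach (j : ℕ) (hj : 4 ≤ j) : ∀ (l : List ℕ) (a : ℕ), chain (a :: l) = true →
    ∀ b ∈ a :: l, ReflTransGen (DS j) (dec b) (dec a) := by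
  intro l
  induction l with
  | nil => intro a _ b hb; simp at hb; subst hb; exact .refl
  | cons x l ih =>
    intro a h b hb
    simp only [chain, Bool.and_eq_true] at h
    rcases List.mem_cons.1 hb with rfl | hb
    · exact .refl
    · exact (ih x h.2 b hb).tail (ab_ds j hj _ _ h.1).symm

lemma tour_chain : chain tour = true := by decide +kernel

lemma tour_all : ((List.range 16384).all fun n => !pb n || tour.contains n) = true := by
  decide +kernel

def c0 : Fin 7 → ℕ := dec 11856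

lemma c0_ok : Pr c0 ∧ ∀ v, c0 v < 4 := by decide

lemma four (j : ℕ) (hj : 4 ≤ j) (c : Fin 7 → ℕ) (h : Pr c) (h4 : ∀ v, c v < 4) :
    ReflTransGen (DS j) c c0 := by
  have := h4 0; have := h4 1; have := h4 2; have := h4 3; have := h4 4; have := h4 5; have := h4 6
  obtain ⟨n, hn, e⟩ : ∃ n < 16384, dec n = c := by
    refine ⟨c 0 + 4 * c 1 + 16 * c 2 + 64 * c 3 + 256 * c 4 + 1024 * c 5 + 4096 * c 6, by omega, ?_⟩
    ext v
    fin_cases v <;> simp [dec] <;> omega
  subst e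
  have hm := List.all_eq_true.1 tour_all n (List.mem_range.2 hn)
  have hp : pb n = true := by
    rw [pr_iff] at h
    simpa [pb, edges] using h
  rw [hp] at hm
  have hm' : n ∈ tour := List.contains_iff_mem.1 hm
  exact chain_reach j hj _ _ tour_chain _ hm'

lemma upd {j : ℕ} {c : Fin 7 → ℕ} (h : Pr c) (hj : ∀ v, c v < j) (v : Fin 7) (x : ℕ) (hx : x < j)
    (hn : ∀ w, adjM v w = true → c w ≠ x) : DS j c (Function.update c v x) := by
  refine ⟨⟨h, hj⟩, ⟨fun a b hab => ?_, fun w => ?_⟩, v, fun w hw => by simp [hw]⟩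
  · by_cases ha : a = v <;> by_cases hb : b = v
    · rw [ha, hb, adjM_irr] at hab; simp at hab
    · subst ha; simpa [hb] using (hn b hab).symm
    · subst hb; simpa [ha] using hn a (adjM_symm _ _ ▸ hab)
    · simpa [ha, hb] using h a b hab
  · by_cases hw : w = v
    · simpa [hw]
    · simpa [hw] using hj w

lemma low (c : Fin 7 → ℕ) (v : Fin 7) (hv : 5 ≤ c v ∨ (4 ≤ c v ∧ v ≠ 6)) :
    ∃ x < c v, ∀ w, adjM v w = true → c w ≠ x := by
  by_contra h
  push Not at h
  have h0 := h 0 (by omega)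
  have h1 := h 1 (by omega)
  have h2 := h 2 (by omega)
  have h3 := h 3 (by omega)
  have h4 := h 4
  fin_cases v <;> simp [adjM, edges] at h0 h1 h2 h3 h4 hv <;> omega

theorem disc (j : ℕ) (hj : 4 ≤ j) : ∀ (n : ℕ) (c : Fin 7 → ℕ), ∑ v, c v = n → Pr c → (∀ v, c v < j) →
    ReflTransGen (DS j) c c0 := by
  intro n
  induction n using Nat.strong_induction_on with
  | _ n ih =>
  intro c hn h hb
  by_cases h1 : ∃ v, ∃ x < c v, ∀ w, adjM v w = true → c w ≠ x
  · obtain ⟨v, x, hx, hw⟩ := h1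
    have s := upd h hb v x (hx.trans (hb v)) hw
    refine .head s (ih _ ?_ _ rfl s.2.1.1 s.2.1.2)
    rw [← hn]
    refine Finset.sum_lt_sum (fun w _ => ?_) ⟨v, Finset.mem_univ _, by simpa⟩
    by_cases hw : w = v
    · simp [hw, hx.le]
    · simp [hw]
  have h2 : ∀ v, c v < 5 ∧ (v ≠ 6 → c v < 4) := by
    intro v
    by_contra hc
    exact h1 ⟨v, low c v (by by_cases hv : v = 6 <;> simp [hv] at hc ⊢ <;> omega)⟩
  by_cases h3 : c 6 < 4
  · exact four j hj c h fun v => by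
      by_cases hv : v = 6
      · exact hv ▸ h3
      · exact (h2 v).2 hv
  have h' := (pr_iff c).1 h
  have a0 := (h2 0).2 (by decide)
  have a1 := (h2 1).2 (by decide)
  have a2 := (h2 2).2 (by decide)
  have a3 := (h2 3).2 (by decide)
  have a4 := (h2 4).2 (by decide)
  have a5 := (h2 5).2 (by decide)
  have a6 := (h2 6).1
  push Not at h1
  have b0 := h1 6 0 (by omega)
  have b1 := h1 6 1 (by omega)
  have b2 := h1 6 2 (by omega)
  have b3 := h1 6 3 (by omega)
  simp [adjM, edges] at b0 b1 b2 b3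
  obtain ⟨x, hx, x0, x3, x5⟩ : ∃ x < 4, x ≠ c 0 ∧ x ≠ c 3 ∧ x ≠ c 5 := by
    by_contra hc
    push Not at hc
    have := hc 0; have := hc 1; have := hc 2; have := hc 3
    omega
  have s1 := upd h hb 0 x (by omega) (by
    intro w; fin_cases w <;> simp [adjM, edges] <;> omega)
  have s2 := upd s1.2.1.1 s1.2.1.2 6 (c 0) (by omega) (by
    intro w; fin_cases w <;> simp [adjM, edges] <;> omega)
  refine .head s1 (.head s2 (four j hj _ s2.2.1.1 ?_))
  intro w
  fin_cases w <;> simp <;> omega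

end Pool.Agent.H.MP_3baeb2_co
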