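import Mathlib
import Pool.Agent.H.MP_3baeb2_co.Disc

set_option autoImplicit false

namespace Pool.Agent.H.MP_3baeb2_co.Circ

open Pool.Agent.H.MP_3baeb2_co Relation

/-- `(k,q)`-colouring -/
def IsCol {V : Type} (G : SimpleGraph V) (k q : ℕ) (f : V → Fin k) : Prop :=
  ∀ u v, G.Adj u v → (q : ℤ) ≤ |((f u : ℕ) : ℤ) - (f v : ℕ)| ∧ |((f u : ℕ) : ℤ) - (f v : ℕ)| ≤ (k : ℤ) - q

/-- one recolouring step -/
def Step {V : Type} (G : SimpleGraph V) (k q : ℕ) (f g : V → Fin k) : Prop :=
  IsCol G k q f ∧ IsCol G k q g ∧ ∃ v, ∀ w, w ≠ v → f w = g w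

/-- `(k,q)`-mixing -/
def Mixing {V : Type} (G : SimpleGraph V) (k q : ℕ) : Prop :=
  ∀ f g : V → Fin k, IsCol G k q f → IsCol G k q g → ReflTransGen (Step G k q) f g

def G : SimpleGraph (Option (Fin 7)) where
  Adj a b := match a, b with
    | none, none => False
    | none, some _ => True
    | some _, none => True
    | some u, some v => adjM u v = true
  symm := ⟨by
    rintro (_ | u) (_ | v) h
    exacts [h, trivial, trivial, (adjM_symm v u).trans h]⟩
  loopless := ⟨by rintro (_ | u) h <;> simp_all [adjM_irr]⟩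

lemma rlift {α β : Type} {r : α → α → Prop} {p : β → β → Prop} (f : α → β)
    (h : ∀ a b, r a b → p (f a) (f b)) {a b : α} (e : ReflTransGen r a b) : ReflTransGen p (f a) (f b) := by
  induction e with
  | refl => exact .refl
  | tail _ s ih => exact ih.tail (h _ _ s)

def L (k q : ℕ) (h : Option (Fin 7) → ℤ) : Prop :=
  ∀ u v, G.Adj u v → (q : ℤ) ≤ |h u - h v| ∧ |h u - h v| ≤ (k : ℤ) - q

def LS (k q : ℕ) (h g : Option (Fin 7) → ℤ) : Prop := L k q h ∧ L k q g ∧ ∃ v, ∀ w, w ≠ v → h w = g w

lemma LS.symm {k q : ℕ} {c d : Option (Fin 7) → ℤ} (h : LS k q c d) : LS k q d c :=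
  ⟨h.2.1, h.1, h.2.2.imp fun _ h w hw => (h w hw).symm⟩

lemma rsymm {k q : ℕ} {c d : Option (Fin 7) → ℤ} (h : ReflTransGen (LS k q) c d) :
    ReflTransGen (LS k q) d c := by
  induction h with
  | refl => exact .refl
  | tail _ s ih => exact .head s.symm ih

def N (k q : ℕ) (t : ℤ) (h : Option (Fin 7) → ℤ) : Prop :=
  h none = t ∧ (∀ v, t + q ≤ h (some v) ∧ h (some v) ≤ t + k - q) ∧
    ∀ u v, adjM u v = true → h (some u) + q ≤ h (some v) ∨ h (some v) + q ≤ h (some u)

lemma N.L {k q : ℕ} {t : ℤ} {h : Option (Fin 7) → ℤ} (n : N k q t h) : L k q h := by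
  obtain ⟨a, b, c⟩ := n
  rintro (_ | u) (_ | v) e
  · exact e.elim
  · have := b v; rw [le_abs, abs_le]; omega
  · have := b u; rw [le_abs, abs_le]; omega
  · have := b u; have := b v; have := c u v e; rw [le_abs, abs_le]; omega

def up (q : ℕ) (t : ℤ) (c : Fin 7 → ℕ) : Option (Fin 7) → ℤ := fun o => o.elim t fun v => t + q * (c v + 1)

lemma up_N {k q j : ℕ} (hj : (j + 1) * q ≤ k) (t : ℤ) {c : Fin 7 → ℕ} (h : Pr c) (hb : ∀ v, c v < j) :
    N k q t (up q t c) := by
  have hj' : ((j : ℤ) + 1) * q ≤ k := by exact_mod_cast hj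
  have hq : (0 : ℤ) ≤ q := by positivity
  refine ⟨rfl, fun v => ?_, fun u v e => ?_⟩
  · have : (c v : ℤ) + 1 ≤ j := by exact_mod_cast hb v
    have : (0 : ℤ) ≤ c v := by positivity
    simp only [up, Option.elim]
    constructor <;> nlinarith
  · simp only [up, Option.elim]
    rcases lt_or_gt_of_ne (h u v e) with a | a
    · have : (c u : ℤ) + 1 ≤ c v := by exact_mod_cast a
      left; nlinarith
    · have : (c v : ℤ) + 1 ≤ c u := by exact_mod_cast a
      right; nlinarith

def dn (q : ℕ) (t : ℤ) (h : Option (Fin 7) → ℤ) : Fin 7 → ℕ := fun v => (h (some v) - t - q).toNat / q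

lemma dn_spec {k q : ℕ} (hq : 0 < q) {t : ℤ} {h : Option (Fin 7) → ℤ} (n : N k q t h) (v : Fin 7) :
    t + q * (dn q t h v + 1) ≤ h (some v) ∧ h (some v) < t + q * (dn q t h v + 2) := by
  have h1 := (n.2.1 v).1
  have h2 := Nat.div_add_mod (h (some v) - t - q).toNat q
  have h3 := Nat.mod_lt (h (some v) - t - q).toNat hq
  have h4 : (q : ℤ) * dn q t h v + (((h (some v) - t - q).toNat % q : ℕ) : ℤ) =
    ((h (some v) - t - q).toNat : ℤ) := by exact_mod_cast h2
  rw [Int.toNat_of_nonneg (by omega)] at h4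
  constructor <;> [rw [mul_add]; rw [mul_add]] <;> omega

lemma dn_lt {k q : ℕ} (hq : 0 < q) {t : ℤ} {h : Option (Fin 7) → ℤ} (n : N k q t h) (u v : Fin 7)
    (e : h (some u) + q ≤ h (some v)) : dn q t h u < dn q t h v := by
  have a := dn_spec hq n u
  have b := dn_spec hq n v
  have : (q : ℤ) * (dn q t h u + 2) < q * (dn q t h v + 2) := by nlinarith
  have := lt_of_mul_lt_mul_left this (by positivity)
  omega

lemma dn_ok {k q : ℕ} (hq : 0 < q) {t : ℤ} {h : Option (Fin 7) → ℤ} (n : N k q t h) :
    Pr (dn q t h) ∧ ∀ v, dn q t h v < k / q - 1 := by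
  refine ⟨fun u v e => ?_, fun v => ?_⟩
  · rcases n.2.2 u v e with a | a
    · exact (dn_lt hq n u v a).ne
    · exact (dn_lt hq n v u a).ne'
  · have a := (dn_spec hq n v).1
    have b := (n.2.1 v).2
    have : (dn q t h v + 2) * q ≤ k := by
      have : ((dn q t h v : ℤ) + 2) * q ≤ k := by nlinarith
      exact_mod_cast this
    have := (Nat.le_div_iff_mul_le hq).2 this
    omega

lemma norm {k q : ℕ} (hq : 0 < q) (hk : 5 * q ≤ k) (t : ℤ) : ∀ (n : ℕ) (h : Option (Fin 7) → ℤ),
    ∑ v, (h (some v) - t).toNat = n → N k q t h → ReflTransGen (LS k q) h (up q t c0) := by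
  intro n
  induction n using Nat.strong_induction_on with
  | _ n ih =>
  intro h hn a
  by_cases h1 : ∀ v, h (some v) = t + q * (dn q t h v + 1)
  · have e : h = up q t (dn q t h) := by
      ext (_ | v)
      · exact a.1
      · exact h1 v
    have h5 : 5 ≤ k / q := (Nat.le_div_iff_mul_le hq).2 hk
    have hj : (k / q - 1 + 1) * q ≤ k := by
      rw [Nat.sub_add_cancel (by omega)]; exact Nat.div_mul_le_self _ _
    have := disc (k / q - 1) (by omega) _ _ rfl (dn_ok hq a).1 (dn_ok hq a).2
    rw [e]
    refine rlift (r := DS (k / q - 1)) (up q t) (fun c d s => ⟨(up_N hj t s.1.1 s.1.2).L, (up_N hj t s.2.1.1 s.2.1.2).L, ?_⟩) this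
    obtain ⟨v, hv⟩ := s.2.2
    refine ⟨some v, ?_⟩
    rintro (_ | w) hw
    · rfl
    · simp [up, hv w (by simpa using hw)]
  · push Not at h1
    obtain ⟨v, hv, hm⟩ := Finset.exists_min_image (Finset.univ.filter fun v => h (some v) ≠ t + q * (dn q t h v + 1))
      (fun v => h (some v)) (by obtain ⟨v, hv⟩ := h1; exact ⟨v, by simpa⟩)
    simp only [Finset.mem_filter, Finset.mem_univ, true_and] at hv hm
    have sp := dn_spec hq a v
    have h0 : (0 : ℤ) ≤ q * dn q t h v := by positivity
    have key : ∀ w, adjM v w = true → t + q * (dn q t h v + 1) + q ≤ h (some w) ∨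
        h (some w) + q ≤ t + q * (dn q t h v + 1) := by
      intro w e
      rcases a.2.2 v w e with b | b
      · left; omega
      · right
        have c1 : h (some w) = t + q * (dn q t h w + 1) := by
          by_contra c
          have := hm w c
          omega
        have c2 : (dn q t h w : ℤ) + 1 ≤ dn q t h v := by exact_mod_cast dn_lt hq a w v b
        nlinarith
    have b : N k q t (Function.update h (some v) (t + q * (dn q t h v + 1))) := by
      refine ⟨by simpa using a.1, fun w => ?_, fun x y e => ?_⟩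
      · by_cases hw : w = v
        · have := a.2.1 v
          subst hw
          simp only [Function.update_self]
          rw [mul_add] at *
          omega
        · simpa [hw] using a.2.1 w
      · by_cases hx : x = v <;> by_cases hy : y = v
        · rw [hx, hy, adjM_irr] at e; simp at e
        · subst hx; simpa [hy] using key y e
        · subst hy; simpa [hx] using (key x (adjM_symm _ _ ▸ e)).symm
        · simpa [hx, hy] using a.2.2 x y e
    refine .head ⟨a.L, b.L, some v, fun w hw => by simp [hw]⟩ (ih _ ?_ _ rfl b)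
    rw [← hn]
    refine Finset.sum_lt_sum (fun w _ => ?_) ⟨v, Finset.mem_univ _, ?_⟩
    · by_cases hw : w = v
      · subst hw
        simp only [Function.update_self]
        omega
      · simp [hw]
    · simp only [Function.update_self]
      rw [mul_add] at *
      omega

lemma rot {k q : ℕ} (hq : 0 < q) (hk : 5 * q < k) (t : ℤ) :
    ReflTransGen (LS k q) (up q (t + 1) c0) (up q t c0) := by
  have a := up_N (k := k) (q := q) (j := 4) (by omega) (t + 1) c0_ok.1 c0_ok.2
  have b : N k q t (Function.update (up q (t + 1) c0) none t) := by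
    refine ⟨by simp, fun v => ?_, fun u v e => by simpa using a.2.2 u v e⟩
    have : (c0 v : ℤ) + 1 ≤ 4 := by exact_mod_cast c0_ok.2 v
    have : (0 : ℤ) ≤ c0 v := by positivity
    have : 5 * (q : ℤ) + 1 ≤ k := by exact_mod_cast hk
    have : (0 : ℤ) ≤ q := by positivity
    simp only [up, ne_eq, reduceCtorEq, not_false_eq_true, Function.update_of_ne, Option.elim]
    constructor <;> nlinarith
  exact .head ⟨a.L, b.L, none, fun w hw => by simp [hw]⟩ (norm hq hk.le t _ _ rfl b)

lemma rot0 {k q : ℕ} (hq : 0 < q) (hk : 5 * q < k) (t : ℕ) :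
    ReflTransGen (LS k q) (up q t c0) (up q 0 c0) := by
  induction t with
  | zero => exact .refl
  | succ t ih => push_cast; exact (rot hq hk t).trans ih

def lift {k : ℕ} (f : Option (Fin 7) → Fin k) : Option (Fin 7) → ℤ :=
  fun o => if (f o : ℕ) < f none then (f o : ℕ) + k else (f o : ℕ)

lemma lift_N {k q : ℕ} {f : Option (Fin 7) → Fin k} (h : IsCol G k q f) : N k q (f none : ℕ) (lift f) := by
  have h0 := (f none).2
  refine ⟨by simp [lift], fun v => ?_, fun u v e => ?_⟩
  · have := h none (some v) trivial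
    have := (f (some v)).2
    rw [le_abs, abs_le] at *
    unfold lift
    split_ifs <;> omega
  · have a := h (some u) (some v) e
    have := (f (some v)).2
    have := (f (some u)).2
    rw [le_abs, abs_le] at a
    unfold lift
    split_ifs <;> omega

def red (k : ℕ) (hk : 0 < k) (h : Option (Fin 7) → ℤ) : Option (Fin 7) → Fin k :=
  fun o => ⟨(h o % k).toNat, by
    have := Int.emod_lt_of_pos (h o) (show (0 : ℤ) < k by exact_mod_cast hk)
    omega⟩

lemma red_lift {k : ℕ} (hk : 0 < k) (f : Option (Fin 7) → Fin k) : red k hk (lift f) = f := by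
  ext o
  have := (f o).2
  have e : ((f o : ℕ) : ℤ) % k = (f o : ℕ) := Int.emod_eq_of_lt (by positivity) (by exact_mod_cast this)
  simp only [red, lift]
  split_ifs
  · rw [Int.add_emod_right, e]; simp
  · rw [e]; simp

lemma red_col {k q : ℕ} (hk : 0 < k) (hq : 0 < q) {h : Option (Fin 7) → ℤ} (a : L k q h) :
    IsCol G k q (red k hk h) := by
  intro u v e
  have b := a u v e
  have hk' : (0 : ℤ) < k := by exact_mod_cast hk
  simp only [red]
  have u1 := Int.emod_lt_of_pos (h u) hk'
  have u2 := Int.emod_nonneg (h u) hk'.ne'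
  have v1 := Int.emod_lt_of_pos (h v) hk'
  have v2 := Int.emod_nonneg (h v) hk'.ne'
  rw [Int.toNat_of_nonneg u2, Int.toNat_of_nonneg v2]
  have u3 := Int.emod_add_mul_ediv (h u) k
  have v3 := Int.emod_add_mul_ediv (h v) k
  rw [le_abs, abs_le] at *
  obtain ⟨d, hd⟩ : ∃ d, d = h u / k - h v / k := ⟨_, rfl⟩
  have e1 : h u - h v = h u % k - h v % k + k * d := by rw [hd, mul_sub]; omega
  have : d = -1 ∨ d = 0 ∨ d = 1 := by
    have : -2 < d := by nlinarith
    have : d < 2 := by nlinarith
    omega
  rcases this with rfl | rfl | rfl <;> omega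

lemma mix {k q : ℕ} (hq : 0 < q) (hk : 5 * q < k) : Mixing G k q := by
  intro f g hf hg
  have h0 : 0 < k := by omega
  have a := (norm hq hk.le _ _ _ rfl (lift_N hf)).trans (rot0 hq hk _)
  have b := (norm hq hk.le _ _ _ rfl (lift_N hg)).trans (rot0 hq hk _)
  have := rlift (r := LS k q) (p := Step G k q) (red k h0) (fun c d s => ⟨red_col h0 hq s.1, red_col h0 hq s.2.1,
    s.2.2.imp fun v hv w hw => by simp [red, hv w hw]⟩) (a.trans (rsymm b))
  rwa [red_lift, red_lift] at this

lemma lowb {k q : ℕ} (hq : 0 < q) {f : Option (Fin 7) → Fin k} (h : IsCol G k q f) : 5 * q ≤ k := by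
  have := dn_ok hq (lift_N h)
  by_contra hk
  have h5 : k / q < 5 := (Nat.div_lt_iff_lt_mul hq).2 (by omega)
  exact no3 _ this.1 fun v => by have := this.2 v; omega

lemma ex5 (t : ℤ) : IsCol G 5 1 (red 5 (by norm_num) (up 1 t c0)) :=
  red_col _ one_pos (up_N (j := 4) (by norm_num) t c0_ok.1 c0_ok.2).L

lemma nomix : ¬ Mixing G 5 1 := by
  intro h
  have key : ∀ f g, ReflTransGen (Step G 5 1) f g → f none = g none := by
    intro f g r
    induction r with
    | refl => rfl
    | @tail g g' _ s ih =>
      rw [ih]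
      obtain ⟨a, b, v, hv⟩ := s
      by_contra hne
      have hv' : v = none := by
        by_contra c
        exact hne (hv none (Ne.symm c))
      subst hv'
      have hne' : (g none : ℕ) ≠ g' none := fun c => hne (Fin.ext c)
      have p : ∀ v, (g (some v) : ℕ) ≠ g none ∧ (g (some v) : ℕ) ≠ g' none := by
        intro v
        have a1 := (a none (some v) trivial).1
        have a2 := (b none (some v) trivial).1
        rw [← hv (some v) (by simp)] at a2
        rw [le_abs] at a1 a2
        omega
      refine no3 (fun v => (g (some v) : ℕ) - (if (g none : ℕ) < g (some v) then 1 else 0) -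
        (if (g' none : ℕ) < g (some v) then 1 else 0)) (fun u v e => ?_) fun v => ?_
      · have := (a (some u) (some v) e).1
        have := p u
        have := p v
        rw [le_abs] at *
        dsimp only
        split_ifs <;> omega
      · have := p v
        have := (g (some v)).2
        have := (g none).2
        have := (g' none).2
        split_ifs <;> omega
  have := key _ _ (h _ _ (ex5 0) (ex5 1))
  simp [red, up] at this

lemma nonbip : ¬ G.Colorable 2 := by
  rintro ⟨C⟩
  have a := C.valid (show G.Adj none (some 0) from trivial)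
  have b := C.valid (show G.Adj none (some 3) from trivial)
  have c := C.valid (show G.Adj (some 0) (some 3) from (by decide : adjM 0 3 = true))
  omega

lemma glb : IsGLB {x : ℝ | ∃ l : ℚ, x = l ∧ ∀ k q : ℕ, 0 < k → 0 < q → l ≤ (k : ℚ) / q → Mixing G k q} 5 := by
  refine ⟨?_, fun b hb => ?_⟩
  · rintro _ ⟨l, rfl, h⟩
    by_contra hl
    have : l < 5 := by exact_mod_cast not_le.1 hl
    exact nomix (h 5 1 (by norm_num) (by norm_num) (by simpa using this.le))
  · by_contra hl
    obtain ⟨l, h1, h2⟩ := exists_rat_btwn (not_le.1 hl)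
    refine absurd (hb ⟨l, rfl, fun k q _ hq h => mix hq ?_⟩) (not_le.2 h2)
    have h3 : (5 : ℚ) < l := by exact_mod_cast h1
    have h4 := h3.trans_le h
    rw [lt_div_iff₀ (by exact_mod_cast hq)] at h4
    exact_mod_cast h4

end Pool.Agent.H.MP_3baeb2_co.Circ
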